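import Pool.Agent.W539.DI.Form
import Pool.Agent.W539.DI.Lin

/-!
# Families of threefolds over a base of any dimension
-/

set_option autoImplicit false

open Module

namespace Pool.Agent.L0h14.HF

/-- The simple polarizable complex Hodge modules on a projective variety `S`, one for each isomorphism class, of the weights
`n` and `n + 1` (the other weights are reached by Tate twists); the trivial one, a Tate twist of the intersection complex
of `S`; and the dimension `coh V a b` of the part of type `(a, b)` of the cohomology of `V`. -/
structure Base where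
  Simple : Type
  trivial : Simple
  coh : Simple → ℤ → ℤ → ℕ

/-- The decomposition theorem for a morphism `f : X → S` of a smooth projective variety `X` of dimension `n` onto `S`
whose fibres are all connected and of dimension three.

`W V j` is the multiplicity space of the simple Hodge module `V` in the twist by `j / 2`, rounded down, of the perverse
cohomology module `P_j = pH^j(Rf_* ℂ_X[n])`, which has weight `n` for even `j` and `n + 1` for odd `j`. These are
subspaces of their direct sum `E V`. -/
structure Family (S : Base) where
  E : S.Simple → Type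
  [group : ∀ V, AddCommGroup (E V)]
  [module : ∀ V, Module ℂ (E V)]
  [finite : ∀ V, FiniteDimensional ℂ (E V)]
  W : ∀ V, ℤ → Submodule ℂ (E V)
  independent : ∀ V, iSupIndep (W V)
  /-- the multiplication by a relatively ample class -/
  l : ∀ V, E V →ₗ[ℂ] E V
  l_mem : ∀ V (j : ℤ), ∀ x ∈ W V j, l V x ∈ W V (j + 2)
  /-- the relative hard Lefschetz theorem -/
  l_injective : ∀ V, ∀ x ∈ W V (-2), l V x = 0 → x = 0
  symmetric : ∀ V (j : ℤ), finrank ℂ (W V (-j)) = finrank ℂ (W V j)
  /-- The fibres have dimension three and are connected, so `P_j = 0` for `|j| > 3` and `P_3` is the intersection complex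
  of `S`. -/
  vanish : ∀ V (j : ℤ), 3 < j → W V j = ⊥
  top_trivial : finrank ℂ (W S.trivial 3) = 1
  top : ∀ V, V ≠ S.trivial → W V 3 = ⊥
  /-- for `V` of weight `n` the real part of the hermitian form given by the Mukai pairing, with values in the dualizing
  complex of `S`, which includes the factor `exp (c₁(X) / 2)` (zero for `V` of weight `n + 1`) -/
  β : ∀ V, E V → E V → ℝ
  β_add : ∀ V x y z, β V (x + y) z = β V x z + β V y z
  β_smul : ∀ V (r : ℝ) x z, β V ((r : ℂ) • x) z = r * β V x z
  β_symm : ∀ V x y, β V x y = β V y x
  β_nondegenerate : ∀ V, ∀ x ∈ W V (-2) ⊔ W V 0 ⊔ W V 2, (∀ y ∈ W V (-2) ⊔ W V 0 ⊔ W V 2, β V x y = 0) → x = 0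
  β_zero : ∀ V (i j : ℤ), 0 < i + j → ∀ x ∈ W V i, ∀ y ∈ W V j, β V x y = 0
  /-- the relative Hodge-Riemann relations for the primitive part of `P_0` -/
  β_pos : ∀ V, ∀ x ∈ W V 0, l V x = 0 → 0 ≤ β V x x
  /-- the relative Hodge-Riemann relations for `P_{-2}`, which is primitive -/
  β_neg : ∀ V, ∀ x ∈ W V (-2), β V (l V x) (l V x) ≤ 0

attribute [instance] Family.group Family.module Family.finite

/-- The Hodge numbers of the total space `X`: the cohomology of `X` is the direct sum of the cohomology groups of the
perverse cohomology modules (Beilinson, Bernstein, Deligne, Gabber, Saito). -/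
noncomputable def Family.h {S : Base} (X : Family S) (p q : ℤ) : ℕ :=
  ∑ᶠ V, ∑ j ∈ Finset.Icc (-3 : ℤ) 3, finrank ℂ (X.W V j) * S.coh V (p - j / 2) (q - j / 2)

/-- The even part of the multiplicity space. -/
def Family.even {S : Base} (X : Family S) (V : S.Simple) : Submodule ℂ (X.E V) :=
  X.W V (-2) ⊔ X.W V 0 ⊔ X.W V 2

/-- The odd part of the multiplicity space. -/
def Family.odd {S : Base} (X : Family S) (V : S.Simple) : Submodule ℂ (X.E V) :=
  X.W V (-3) ⊔ X.W V (-1) ⊔ X.W V 1 ⊔ X.W V 3

/-- The action of an equivalence of derived categories over `S`, for example of any equivalence if `f` and `g` are the Iitaka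
fibrations: the class of its kernel is a sum of cycles of all dimensions on `X ×_S Y` and gives an isomorphism of the
sums of the even and of the odd perverse cohomology modules, which respects the Mukai pairings. -/
structure Transform {S : Base} (X Y : Family S) where
  φ : ∀ V, X.E V ≃ₗ[ℂ] Y.E V
  even : ∀ V, (X.even V).map (φ V).toLinearMap = Y.even V
  odd : ∀ V, (X.odd V).map (φ V).toLinearMap = Y.odd V
  isometry : ∀ V, ∀ x ∈ X.even V, Y.β V (φ V x) (φ V x) = X.β V x x

end Pool.Agent.L0h14.HF
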