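import Pool.Agent.L0h14.HF.Defs

/-!
# Hodge numbers of families of threefolds
-/

set_option autoImplicit false

open Module

namespace Pool.Agent.L0h14.HF

variable {S : Base}

theorem finrank_even (X : Family S) (V : S.Simple) :
    finrank ℂ (X.even V) = finrank ℂ (X.W V 0) + 2 * finrank ℂ (X.W V 2) := by
  have h := Pool.Agent.W539.DI.finrank_iSup_finset (X.W V) (X.independent V) {-2, 0, 2}
  have e : (⨆ k ∈ ({-2, 0, 2} : Finset ℤ), X.W V k) = X.even V := by
    simp only [Finset.mem_insert, Finset.mem_singleton, iSup_or, iSup_sup_eq, iSup_iSup_eq_left, Family.even, sup_assoc]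
  rw [e] at h
  rw [h, Finset.sum_insert (by decide), Finset.sum_insert (by decide), Finset.sum_singleton, X.symmetric V 2]
  ring

theorem finrank_odd (X : Family S) (V : S.Simple) :
    finrank ℂ (X.odd V) = 2 * finrank ℂ (X.W V 1) + 2 * finrank ℂ (X.W V 3) := by
  have h := Pool.Agent.W539.DI.finrank_iSup_finset (X.W V) (X.independent V) {-3, -1, 1, 3}
  have e : (⨆ k ∈ ({-3, -1, 1, 3} : Finset ℤ), X.W V k) = X.odd V := by
    simp only [Finset.mem_insert, Finset.mem_singleton, iSup_or, iSup_sup_eq, iSup_iSup_eq_left, Family.odd, sup_assoc]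
  rw [e] at h
  rw [h, Finset.sum_insert (by decide), Finset.sum_insert (by decide), Finset.sum_insert (by decide),
    Finset.sum_singleton, X.symmetric V 3, X.symmetric V 1]
  ring

theorem disjoint_W (X : Family S) (V : S.Simple) {i j : ℤ} (h : i ≠ j) : Disjoint (X.W V i) (X.W V j) :=
  (X.independent V).pairwiseDisjoint h

/-- A nonpositive subspace. -/
def neg (X : Family S) (V : S.Simple) : Submodule ℂ (X.E V) := X.W V 2 ⊔ (X.W V (-2)).map (X.l V)

theorem map_l_le (X : Family S) (V : S.Simple) : (X.W V (-2)).map (X.l V) ≤ X.W V 0 := by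
  rintro _ ⟨x, hx, rfl⟩
  have := X.l_mem V (-2) x hx
  rwa [show (-2 : ℤ) + 2 = 0 by norm_num] at this

theorem finrank_neg (X : Family S) (V : S.Simple) : finrank ℂ (neg X V) = 2 * finrank ℂ (X.W V 2) := by
  have h1 := Submodule.finrank_sup_add_finrank_inf_eq (X.W V 2) ((X.W V (-2)).map (X.l V))
  have hd : Disjoint (X.W V 2) ((X.W V (-2)).map (X.l V)) :=
    (disjoint_W X V (by norm_num : (2 : ℤ) ≠ 0)).mono_right (map_l_le X V)
  rw [hd.eq_bot, finrank_bot, add_zero] at h1
  have h2 : finrank ℂ ((X.W V (-2)).map (X.l V)) = finrank ℂ (X.W V (-2)) := by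
    have hi : Function.Injective ((X.l V).domRestrict (X.W V (-2))) := by
      rw [injective_iff_map_eq_zero]
      intro x hx
      exact Subtype.ext (X.l_injective V x x.2 hx)
    have := LinearMap.finrank_range_of_inj hi
    rwa [LinearMap.range_domRestrict] at this
  rw [neg, h1, h2, X.symmetric V 2]
  ring

theorem neg_le (X : Family S) (V : S.Simple) : neg X V ≤ X.even V :=
  sup_le le_sup_right ((map_l_le X V).trans (le_sup_right.trans le_sup_left))

theorem β_self_add (X : Family S) (V : S.Simple) (a b : X.E V) :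
    X.β V (a + b) (a + b) = X.β V a a + 2 * X.β V a b + X.β V b b := by
  rw [X.β_add, X.β_symm V a (a + b), X.β_add, X.β_symm V b (a + b), X.β_add, X.β_symm V b a]
  ring

theorem neg_nonpos (X : Family S) (V : S.Simple) : ∀ x ∈ neg X V, X.β V x x ≤ 0 := by
  intro x hx
  obtain ⟨a, ha, b, ⟨y, hy, rfl⟩, rfl⟩ := Submodule.mem_sup.mp hx
  rw [β_self_add, X.β_zero V 2 2 (by norm_num) a ha a ha,
    X.β_zero V 2 0 (by norm_num) a ha _ (map_l_le X V ⟨y, hy, rfl⟩)]
  have := X.β_neg V y hy
  linarith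

/-- A nonnegative subspace. -/
def pos (X : Family S) (V : S.Simple) : Submodule ℂ (X.E V) := X.W V 2 ⊔ (X.W V 0 ⊓ LinearMap.ker (X.l V))

theorem finrank_pos (X : Family S) (V : S.Simple) : finrank ℂ (X.W V 0) ≤ finrank ℂ (pos X V) := by
  have h1 := Submodule.finrank_sup_add_finrank_inf_eq (X.W V 2) (X.W V 0 ⊓ LinearMap.ker (X.l V))
  have hd : Disjoint (X.W V 2) (X.W V 0 ⊓ LinearMap.ker (X.l V)) :=
    (disjoint_W X V (by norm_num : (2 : ℤ) ≠ 0)).mono_right inf_le_left
  rw [hd.eq_bot, finrank_bot, add_zero] at h1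
  have h2 := LinearMap.finrank_range_add_finrank_ker ((X.l V).domRestrict (X.W V 0))
  have h3 : finrank ℂ (LinearMap.range ((X.l V).domRestrict (X.W V 0))) ≤ finrank ℂ (X.W V 2) := by
    refine Submodule.finrank_mono ?_
    rintro _ ⟨x, rfl⟩
    have := X.l_mem V 0 x x.2
    rwa [zero_add] at this
  have h4 : finrank ℂ (LinearMap.ker ((X.l V).domRestrict (X.W V 0))) =
      finrank ℂ (X.W V 0 ⊓ LinearMap.ker (X.l V) : Submodule ℂ (X.E V)) := by
    have e : (LinearMap.ker ((X.l V).domRestrict (X.W V 0))).map (X.W V 0).subtype = X.W V 0 ⊓ LinearMap.ker (X.l V) := by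
      ext x
      constructor
      · rintro ⟨y, hy, rfl⟩
        exact ⟨y.2, hy⟩
      · rintro ⟨hx, hx'⟩
        exact ⟨⟨x, hx⟩, hx', rfl⟩
    rw [← e]
    exact (Submodule.equivMapOfInjective _ (Submodule.injective_subtype _) _).finrank_eq
  rw [pos, h1]
  omega

theorem pos_le (X : Family S) (V : S.Simple) : pos X V ≤ X.even V :=
  sup_le le_sup_right (inf_le_left.trans (le_sup_right.trans le_sup_left))

theorem pos_nonneg (X : Family S) (V : S.Simple) : ∀ x ∈ pos X V, 0 ≤ X.β V x x := by
  intro x hx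
  obtain ⟨a, ha, b, ⟨hb, hb'⟩, rfl⟩ := Submodule.mem_sup.mp hx
  rw [β_self_add, X.β_zero V 2 2 (by norm_num) a ha a ha, X.β_zero V 2 0 (by norm_num) a ha b hb]
  have := X.β_pos V b hb hb'
  linarith

/-- The comparison of the multiplicities in `P_2`. -/
theorem le_two {X Y : Family S} (V : S.Simple) (φ : X.E V ≃ₗ[ℂ] Y.E V)
    (he : (X.even V).map φ.toLinearMap = Y.even V) (hi : ∀ x ∈ X.even V, Y.β V (φ x) (φ x) = X.β V x x) :
    finrank ℂ (X.W V 2) ≤ finrank ℂ (Y.W V 2) := by
  have h1 : (neg X V).map φ.toLinearMap ≤ Y.even V := by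
    rw [← he]
    exact Submodule.map_mono (neg_le X V)
  have h := Pool.Agent.W539.DI.semi_complex (Y.even V) (pos Y V) ((neg X V).map φ.toLinearMap) (pos_le Y V) h1
    (Y.β V) (Y.β_add V) (Y.β_smul V) (Y.β_symm V) (Y.β_nondegenerate V) (pos_nonneg Y V) (by
      rintro _ ⟨x, hx, rfl⟩
      show Y.β V (φ x) (φ x) ≤ 0
      rw [hi x (neg_le X V hx)]
      exact neg_nonpos X V x hx)
  have h2 : finrank ℂ ((neg X V).map φ.toLinearMap) = finrank ℂ (neg X V) := LinearEquiv.finrank_map_eq φ _
  rw [h2, finrank_neg, finrank_even] at h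
  have := finrank_pos Y V
  omega

/-- All multiplicities are equal. -/
theorem finrank_W {X Y : Family S} (Φ : Transform X Y) (V : S.Simple) (j : ℤ) :
    finrank ℂ (X.W V j) = finrank ℂ (Y.W V j) := by
  have e2 : finrank ℂ (X.W V 2) = finrank ℂ (Y.W V 2) := by
    refine le_antisymm (le_two V (Φ.φ V) (Φ.even V) (Φ.isometry V)) ?_
    have hm : (Y.even V).map (Φ.φ V).symm.toLinearMap = X.even V := by
      rw [← Φ.even V, ← Submodule.map_comp]
      have : (Φ.φ V).symm.toLinearMap ∘ₗ (Φ.φ V).toLinearMap = LinearMap.id := by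
        ext x
        simp
      rw [this, Submodule.map_id]
    refine le_two V (Φ.φ V).symm hm ?_
    intro y hy
    have hx : (Φ.φ V).symm y ∈ X.even V := by
      rw [← hm]
      exact ⟨y, hy, rfl⟩
    have := Φ.isometry V _ hx
    rw [LinearEquiv.apply_symm_apply] at this
    exact this.symm
  have ee : finrank ℂ (X.even V) = finrank ℂ (Y.even V) := by
    rw [← Φ.even V]
    exact (LinearEquiv.finrank_map_eq (Φ.φ V) _).symm
  have eo : finrank ℂ (X.odd V) = finrank ℂ (Y.odd V) := by
    rw [← Φ.odd V]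
    exact (LinearEquiv.finrank_map_eq (Φ.φ V) _).symm
  rw [finrank_even, finrank_even] at ee
  rw [finrank_odd, finrank_odd] at eo
  have e3 : finrank ℂ (X.W V 3) = finrank ℂ (Y.W V 3) := by
    by_cases hV : V = S.trivial
    · subst hV
      rw [X.top_trivial, Y.top_trivial]
    · rw [X.top V hV, Y.top V hV, finrank_bot, finrank_bot]
  have key : ∀ j : ℤ, 0 ≤ j → finrank ℂ (X.W V j) = finrank ℂ (Y.W V j) := by
    intro j hj
    by_cases h3 : 3 < j
    · rw [X.vanish V j h3, Y.vanish V j h3, finrank_bot, finrank_bot]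
    · have : j = 0 ∨ j = 1 ∨ j = 2 ∨ j = 3 := by omega
      rcases this with rfl | rfl | rfl | rfl
      · omega
      · omega
      · exact e2
      · exact e3
  rcases le_total 0 j with h | h
  · exact key j h
  · have := key (-j) (by omega)
    rw [X.symmetric V j, Y.symmetric V j] at this
    exact this

theorem hodge {X Y : Family S} (Φ : Transform X Y) (p q : ℤ) : X.h p q = Y.h p q := by
  unfold Family.h
  simp only [finrank_W Φ]

end Pool.Agent.L0h14.HF
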